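import Pool.Agent.Lib.MP_2a816b_nt.BH.WRec

/-!
# The multiplicative function of a product of shifted characters (job M)

`chm_mulFn`: `natDegree (g h) = natDegree g + natDegree h` for monic `g, h` (`Monic.natDegree_mul`), `eval_mul`, multiplicativity of the characters. `Ac_chm_zero`: `mon K 0 = {1}` (`MPadc574G.mem_mon`; `Monic.natDegree_eq_zero_iff_eq_one`;
compare `WKl_mon_zero` in `MP_2a816b_nt/BH/WKl.lean`). `Ac_chm_eq_zero`: let `h = ∏_{i ≠ j} (X + C (b i))`, of degree `card ι - 1 < n`. For `t ∈ K` the map `g ↦ g + C t * h` is a bijection of `mon K n` (the inverse is `g ↦ g - C t * h`;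
degree of `h` less than `n`: `Monic.add_of_left`, `natDegree_add_eq_left_of_natDegree_lt`; compare `As_eq_zero` in `MP_adc574_ag_G2/RatA.lean`), so
`Ac n = ∑_g ∏_i χ_i((-1)^n (g + t h)(-b_i)) = ∑_g (∏_{i ≠ j} χ_i((-1)^n g(-b_i))) χ_j((-1)^n (g(-b_j) + t h(-b_j)))` because `h(-b_i) = 0` for `i ≠ j`. Sum over `t ∈ K`: `h(-b_j) = ∏_{i ≠ j} (b_i - b_j) ≠ 0`, so
`∑_t χ_j((-1)^n (u + t h(-b_j))) = ∑_y χ_j y = 0` (`y = (-1)^n (u + t h(-b_j))` is a bijection; `MulChar.sum_eq_zero_of_ne_one`). Hence `card K * Ac n = 0`.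
-/

namespace Pool.Agent.Lib.MP_42948a_nt.WX

open Polynomial Finset BHWeil

/-- the multiplicative function `g ↦ ∏ χ_i(norm of (x + b_i))`, `x` a root of `g` -/
noncomputable def chm {K ι : Type*} [Field K] [Fintype ι] (χ : ι → MulChar K ℂ) (b : ι → K) (g : K[X]) : ℂ :=
  ∏ i, χ i ((-1) ^ g.natDegree * g.eval (-(b i)))

theorem chm_mulFn {K ι : Type*} [Field K] [Fintype ι] (χ : ι → MulChar K ℂ) (b : ι → K) : MulFn (chm χ b) := by
  constructor
  · unfold chm
    refine Finset.prod_eq_one fun i _ => ?_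
    rw [natDegree_one, pow_zero, eval_one, mul_one, map_one]
  · intro g h hg hh
    unfold chm
    rw [← Finset.prod_mul_distrib]
    refine Finset.prod_congr rfl fun i _ => ?_
    rw [hg.natDegree_mul hh, eval_mul, ← map_mul]
    congr 1
    ring

theorem Ac_chm_zero {K ι : Type*} [Field K] [Fintype K] [Fintype ι] (χ : ι → MulChar K ℂ) (b : ι → K) :
    Ac (chm χ b) 0 = 1 := by
  have h : MPadc574G.mon K 0 = {1} := by
    ext g
    rw [MPadc574G.mem_mon, Finset.mem_singleton]
    constructor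
    · rintro ⟨h1, h2⟩
      exact h1.natDegree_eq_zero.1 h2
    · rintro rfl
      exact ⟨monic_one, natDegree_one⟩
  unfold Ac
  rw [h, Finset.sum_singleton]
  exact (chm_mulFn χ b).one

theorem Ac_chm_eq_zero {K ι : Type*} [Field K] [Fintype K] [Fintype ι] (χ : ι → MulChar K ℂ) (b : ι → K) (j : ι)
    (hj : ∀ i, i ≠ j → b i ≠ b j) (hχ : χ j ≠ 1) (n : ℕ) (hn : Fintype.card ι ≤ n) : Ac (chm χ b) n = 0 := by
  classical
  set h : K[X] := ∏ i ∈ Finset.univ.erase j, (X + C (b i)) with hh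
  have hdegh : h.natDegree = Fintype.card ι - 1 := by
    rw [hh, natDegree_prod_of_monic _ _ (fun i _ => monic_X_add_C (b i))]
    simp
  have heval : ∀ y : K, h.eval y = ∏ i ∈ Finset.univ.erase j, (y + b i) := by
    intro y
    rw [hh, eval_prod]
    simp
  set a : K := h.eval (-(b j)) with ha
  have ha0 : a ≠ 0 := by
    rw [ha, heval]
    refine Finset.prod_ne_zero_iff.2 fun i hi => ?_
    have h1 := hj i (Finset.ne_of_mem_erase hi)
    intro h2
    apply h1
    linear_combination h2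
  set l : K[X] := C a⁻¹ * h with hl
  have hl0 : l.eval (-(b j)) = 1 := by
    rw [hl, eval_mul, eval_C, ← ha]
    exact inv_mul_cancel₀ ha0
  have hl1 : ∀ i ∈ Finset.univ.erase j, l.eval (-(b i)) = 0 := by
    intro i hi
    rw [hl, eval_mul, heval, Finset.prod_eq_zero hi (neg_add_cancel (b i)), mul_zero]
  have hcard : 0 < Fintype.card ι := Fintype.card_pos_iff.mpr ⟨j⟩
  have hdeg : ∀ t : K, (C t * l).degree < n := by
    intro t
    have h1 : (C t * l).natDegree ≤ Fintype.card ι - 1 := by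
      refine (natDegree_C_mul_le _ _).trans ?_
      rw [hl]
      refine (natDegree_C_mul_le _ _).trans ?_
      rw [hdegh]
    refine lt_of_le_of_lt degree_le_natDegree ?_
    exact_mod_cast lt_of_le_of_lt h1 (by omega)
  have hmem : ∀ (t : K) (g : K[X]), g ∈ MPadc574G.mon K n → g + C t * l ∈ MPadc574G.mon K n := by
    intro t g hg
    rw [MPadc574G.mem_mon] at hg ⊢
    have hgd : g.degree = n := by rw [degree_eq_natDegree hg.1.ne_zero, hg.2]
    have hlt : (C t * l).degree < g.degree := by rw [hgd]; exact hdeg t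
    refine ⟨hg.1.add_of_left hlt, ?_⟩
    rw [natDegree_add_eq_left_of_degree_lt hlt, hg.2]
  have hshift : ∀ t : K, ∑ g ∈ MPadc574G.mon K n, chm χ b (g + C t * l) = Ac (chm χ b) n := by
    intro t
    refine Finset.sum_nbij' (fun g => g + C t * l) (fun g => g + C (-t) * l)
      (fun g hg => hmem t g hg) (fun g hg => hmem (-t) g hg) ?_ ?_ ?_
    · intro g _
      simp only [C_neg]
      ring
    · intro g _
      simp only [C_neg]
      ring
    · intro g _
      rfl
  have hch : ∀ (t : K) (g : K[X]), g ∈ MPadc574G.mon K n → chm χ b (g + C t * l)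
      = (∏ i ∈ Finset.univ.erase j, χ i ((-1) ^ n * g.eval (-(b i)))) *
        χ j ((-1) ^ n * (g.eval (-(b j)) + t)) := by
    intro t g hg
    have h1 := (MPadc574G.mem_mon.mp (hmem t g hg)).2
    unfold chm
    rw [h1, ← Finset.prod_erase_mul Finset.univ _ (Finset.mem_univ j)]
    congr 1
    · refine Finset.prod_congr rfl fun i hi => ?_
      rw [eval_add, eval_mul, hl1 i hi, mul_zero, add_zero]
    · rw [eval_add, eval_mul, hl0, mul_one, eval_C]
  have hzero : ∀ u : K, ∑ t : K, χ j ((-1) ^ n * (u + t)) = 0 := by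
    intro u
    have hne : ((-1 : K)) ^ n ≠ 0 := pow_ne_zero _ (neg_ne_zero.mpr one_ne_zero)
    have e3 : ∑ t : K, χ j ((-1) ^ n * (u + t)) = ∑ t : K, χ j t :=
      Fintype.sum_equiv ((Equiv.addLeft u).trans (Equiv.mulLeft₀ ((-1 : K) ^ n) hne)) _ _
        (fun t => rfl)
    rw [e3]
    exact MulChar.sum_eq_zero_of_ne_one hχ
  have hsum : (Fintype.card K : ℂ) * Ac (chm χ b) n = 0 := by
    have e1 : (Fintype.card K : ℂ) * Ac (chm χ b) n = ∑ _t : K, Ac (chm χ b) n := by
      rw [Finset.sum_const, Finset.card_univ, nsmul_eq_mul]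
    rw [e1]
    have e2 : ∑ _t : K, Ac (chm χ b) n =
        ∑ t : K, ∑ g ∈ MPadc574G.mon K n, chm χ b (g + C t * l) :=
      Finset.sum_congr rfl fun t _ => (hshift t).symm
    rw [e2, Finset.sum_comm]
    refine Finset.sum_eq_zero fun g hg => ?_
    rw [Finset.sum_congr rfl fun t _ => hch t g hg, ← Finset.mul_sum, hzero, mul_zero]
  have hcard2 : (Fintype.card K : ℂ) ≠ 0 := by
    exact_mod_cast Fintype.card_ne_zero
  exact (mul_eq_zero.1 hsum).resolve_left hcard2

end Pool.Agent.Lib.MP_42948a_nt.WX
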