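import Mathlib

/-!
# Newton's identities (job N)

`poly_roots`: induction on `N` (for all `Q`). `N = 0`: `Q = C 1`. Step: if `natDegree Q ≤ N` take `Fin.cons 0 α`. Otherwise `Q` has a root `z` (`IsAlgClosed.exists_root`), `z ≠ 0` as `Q.coeff 0 = 1`,
`Q = (X - C z) * R = (1 - C z⁻¹ * X) * (C (- z) * R)`; `C (-z) * R` has constant coefficient `1` and degree one less. Take `Fin.cons z⁻¹ α` (`Fin.prod_univ_succ`, `Fin.cons_zero`, `Fin.cons_succ`).
`newton_prod`: induction on `N`, `α = Fin.cons a α'` (`Fin.consInduction` or `Fin.cons_self_tail`), `Q' = (1 - C a * X) * Q`, `Q'_n = Q_n - a Q_{n-1}` (`n ≥ 1`), `Q'_0 = Q_0`. With `p_j = ∑ α'^j`: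
`∑_{j=1}^n (a^j + p_j) Q'_{n-j} = ∑_j p_j Q_{n-j} - a ∑_{j ≤ n-1} p_j Q_{n-1-j} + ∑_{j=1}^n a^j (Q_{n-j} - a Q_{n-1-j})`; by induction the first two are `- n Q_n + a (n-1) Q_{n-1}`, the last sum telescopes to `a Q_{n-1}`
(in the term `j = n` the coefficient `Q'_0 = Q_0`). Total `- n (Q_n - a Q_{n-1}) = - n Q'_n`. (Perhaps easier with power series or with `Polynomial.derivative`: `X * derivative Q = - (∑_j p_j X^j) Q` in `ℂ⟦X⟧`.)
`newtonN`: `Q = ∑_{k ≤ N} C (A k) * X ^ k`, `coeff Q n = A n` for all `n` (`A n = 0` for `n > N`). `α` from `poly_roots`; by strong induction on `j ≥ 1`: `L j = - ∑ α^j`, since `A 0 = 1`: both sequences satisfy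
`L_n = n A_n - ∑_{1 ≤ j < n} L_j A_{n-j}` (`hrec`, `newton_prod`; `Icc 1 n = insert n (Icc 1 (n - 1))` for `n ≥ 1`, or `Finset.sum_Icc_succ_top`).
-/

namespace Pool.Agent.Lib.MP_42948a_nt.WX

open Polynomial Finset

theorem poly_roots (N : ℕ) (Q : ℂ[X]) (h0 : Q.coeff 0 = 1) (hN : Q.natDegree ≤ N) :
    ∃ α : Fin N → ℂ, Q = ∏ i, (1 - C (α i) * X) := by
  induction N generalizing Q with
  | zero =>
    refine ⟨fun _ => 0, ?_⟩
    rw [eq_C_of_natDegree_le_zero hN, h0]
    simp
  | succ N ih =>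
    by_cases hd : Q.natDegree ≤ N
    · obtain ⟨α, hα⟩ := ih Q h0 hd
      refine ⟨Fin.cons 0 α, ?_⟩
      rw [Fin.prod_univ_succ]
      simp only [Fin.cons_zero, Fin.cons_succ]
      rw [C_0, zero_mul, sub_zero, one_mul]
      exact hα
    · have hQ0 : Q ≠ 0 := by
        rintro rfl
        rw [coeff_zero] at h0
        exact zero_ne_one h0
      have hdeg : Q.degree ≠ 0 := by
        intro h
        have h2 : Q.natDegree = 0 := natDegree_eq_of_degree_eq_some h
        omega
      obtain ⟨z, hz⟩ := IsAlgClosed.exists_root Q hdeg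
      have hz0 : z ≠ 0 := by
        rintro rfl
        have h1 : Q.eval 0 = 0 := hz
        rw [← coeff_zero_eq_eval_zero, h0] at h1
        exact one_ne_zero h1
      obtain ⟨R, hR⟩ := dvd_iff_isRoot.2 hz
      have hQ' : Q = (1 - C z⁻¹ * X) * (C (-z) * R) := by
        rw [hR]
        have h1 : (C z⁻¹ : ℂ[X]) * C z = 1 := by
          rw [← C_mul, inv_mul_cancel₀ hz0, C_1]
        rw [C_neg]
        linear_combination (-(X : ℂ[X]) * R) * h1
      have hR0 : R ≠ 0 := by
        rintro rfl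
        rw [mul_zero] at hR
        exact hQ0 hR
      have hdR : (C (-z) * R).natDegree ≤ N := by
        refine (natDegree_C_mul_le _ _).trans ?_
        have h1 : Q.natDegree = 1 + R.natDegree := by
          rw [hR, natDegree_mul (X_sub_C_ne_zero z) hR0, natDegree_X_sub_C]
        omega
      have hc0 : (C (-z) * R).coeff 0 = 1 := by
        have h1 : Q.coeff 0 = ((1 - C z⁻¹ * X) * (C (-z) * R)).coeff 0 :=
          congrArg (fun P : ℂ[X] => P.coeff 0) hQ'
        rw [mul_coeff_zero, h0] at h1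
        have h2 : (1 - C z⁻¹ * X : ℂ[X]).coeff 0 = 1 := by simp
        rw [h2, one_mul] at h1
        exact h1.symm
      obtain ⟨α, hα⟩ := ih _ hc0 hdR
      refine ⟨Fin.cons z⁻¹ α, ?_⟩
      rw [Fin.prod_univ_succ]
      simp only [Fin.cons_zero, Fin.cons_succ]
      rw [← hα]
      exact hQ'

private theorem N_sum (f : ℕ → ℂ) (n : ℕ) : ∑ j ∈ Icc 1 n, f j = ∑ j ∈ range n, f (j + 1) := by
  induction n with
  | zero => simp
  | succ n ih => rw [Finset.sum_Icc_succ_top (by omega), ih, Finset.sum_range_succ]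

private theorem N_tele (a : ℂ) (R : ℂ[X]) (n : ℕ) :
    ∑ j ∈ Icc 1 n, a ^ j * ((1 - C a * X) * R).coeff (n - j) = (C a * (X * R)).coeff n := by
  rw [N_sum]
  induction n with
  | zero => simp
  | succ n ih =>
    rw [Finset.sum_range_succ']
    have h1 : ∀ j ∈ range n, a ^ (j + 1 + 1) * ((1 - C a * X) * R).coeff (n + 1 - (j + 1 + 1)) =
        a * (a ^ (j + 1) * ((1 - C a * X) * R).coeff (n - (j + 1))) := by
      intro j _
      have h2 : n + 1 - (j + 1 + 1) = n - (j + 1) := by omega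
      rw [h2]
      ring
    rw [Finset.sum_congr rfl h1, ← Finset.mul_sum, ih]
    have h3 : ((1 - C a * X) * R).coeff n = R.coeff n - (C a * (X * R)).coeff n := by
      rw [← coeff_sub]
      congr 1
      ring
    have h4 : n + 1 - (0 + 1) = n := by omega
    rw [h4, h3, coeff_C_mul _ (n := n + 1), coeff_X_mul]
    ring

private theorem N_der (P : ℂ[X]) (n : ℕ) : (n : ℂ) * P.coeff n = (X * derivative P).coeff n := by
  cases n with
  | zero => simp
  | succ m =>
    rw [coeff_X_mul, coeff_derivative]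
    push_cast
    ring

theorem newton_prod (N : ℕ) (α : Fin N → ℂ) (n : ℕ) :
    (n : ℂ) * (∏ i, (1 - C (α i) * X) : ℂ[X]).coeff n =
      ∑ j ∈ Icc 1 n, (-∑ i, α i ^ j) * (∏ i, (1 - C (α i) * X) : ℂ[X]).coeff (n - j) := by
  classical
  rw [N_der, derivative_prod_finset, Finset.mul_sum, finsetSum_coeff]
  have h1 : ∀ i ∈ (univ : Finset (Fin N)),
      (X * ((∏ k ∈ univ.erase i, (1 - C (α k) * X)) * derivative (1 - C (α i) * X) : ℂ[X])).coeff n =
        -∑ j ∈ Icc 1 n, α i ^ j * (∏ i, (1 - C (α i) * X) : ℂ[X]).coeff (n - j) := by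
    intro i _
    have h2 : (∏ i, (1 - C (α i) * X) : ℂ[X]) = (1 - C (α i) * X) * ∏ k ∈ univ.erase i, (1 - C (α k) * X) :=
      (Finset.mul_prod_erase univ _ (mem_univ i)).symm
    rw [h2, N_tele, ← coeff_neg]
    congr 1
    rw [derivative_sub, derivative_one, derivative_C_mul, derivative_X]
    ring
  rw [Finset.sum_congr rfl h1, Finset.sum_neg_distrib, Finset.sum_comm, ← Finset.sum_neg_distrib]
  refine Finset.sum_congr rfl fun j _ => ?_
  rw [neg_mul, Finset.sum_mul]

theorem newtonN (N : ℕ) (A L : ℕ → ℂ) (h0 : A 0 = 1) (hN : ∀ n, N < n → A n = 0)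
    (hrec : ∀ n : ℕ, (n : ℂ) * A n = ∑ j ∈ Icc 1 n, L j * A (n - j)) :
    ∃ α : Fin N → ℂ, ∀ j, 0 < j → L j = -∑ i, α i ^ j := by
  set Q : ℂ[X] := ∑ k ∈ range (N + 1), C (A k) * X ^ k with hQ
  have hc : ∀ n, Q.coeff n = A n := by
    intro n
    rw [hQ, finsetSum_coeff]
    by_cases h : n < N + 1
    · rw [Finset.sum_eq_single n]
      · rw [coeff_C_mul, coeff_X_pow, if_pos rfl, mul_one]
      · intro k _ hk
        rw [coeff_C_mul, coeff_X_pow, if_neg (Ne.symm hk), mul_zero]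
      · intro h'
        exact absurd (mem_range.2 h) h'
    · rw [hN n (by omega)]
      refine Finset.sum_eq_zero fun k hk => ?_
      have hk' := mem_range.1 hk
      rw [coeff_C_mul, coeff_X_pow, if_neg (by omega), mul_zero]
  have hd : Q.natDegree ≤ N := by
    rw [natDegree_le_iff_coeff_eq_zero]
    intro n hn
    rw [hc, hN n hn]
  obtain ⟨α, hα⟩ := poly_roots N Q (by rw [hc, h0]) hd
  refine ⟨α, ?_⟩
  intro j
  induction j using Nat.strong_induction_on with
  | _ j ih =>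
    intro hj
    obtain ⟨m, rfl⟩ : ∃ m, j = m + 1 := ⟨j - 1, by omega⟩
    have h1 := newton_prod N α (m + 1)
    rw [← hα] at h1
    have h2 := hrec (m + 1)
    rw [hc] at h1
    simp only [hc] at h1
    rw [h2, Finset.sum_Icc_succ_top (by omega), Finset.sum_Icc_succ_top (by omega)] at h1
    have h3 : ∑ k ∈ Icc 1 m, L k * A (m + 1 - k) = ∑ k ∈ Icc 1 m, (-∑ i, α i ^ k) * A (m + 1 - k) := by
      refine Finset.sum_congr rfl fun k hk => ?_
      obtain ⟨hk1, hk2⟩ := mem_Icc.1 hk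
      rw [ih k (by omega) (by omega)]
    rw [h3, Nat.sub_self, h0, mul_one, mul_one] at h1
    exact add_left_cancel h1

end Pool.Agent.Lib.MP_42948a_nt.WX
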