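import Pool.Agent.Lib.MP_adc574_ag_G2.RatC
import Pool.Agent.Lib.MP_42948a_nt.WX.M
import Pool.Agent.Lib.MP_42948a_nt.WX.N

/-!
# The power sums are character sums over the extensions (job S)

`SF_eq_Lc`: as `KF_eq_Lc` in `MP_2a816b_nt/BH/WPow.lean` (copy the grouping of the `x ∈ F` by minimal polynomial; do NOT use `convert`: the last step there uses it, replace it by `rw`/`exact` with `MPadc574G.card_minpoly`,
for instance by `(Finset.card_bij ..)` or `by classical; simpa using ..`). New: for `x` with minimal polynomial `P` of degree `d` over `K`: `x + b = - (- b - x)`, `norm (-1) = (-1) ^ j` (`Algebra.norm_algebraMap`, `finrank = j`),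
`norm (algebraMap (-b) - x) = P(-b) ^ (j / d)` (`MPadc574G.norm_sub`) and `(-1) ^ j = ((-1) ^ d) ^ (j / d)` (`d ∣ j`), so
`χ_i (norm (x + b_i)) = χ_i ((-1) ^ d * P(-b_i)) ^ (j / d)` (`map_pow`), and the product over `i` is `chm χ b P ^ (j / d)` (`Finset.prod_pow`).
`exists_roots'`: `newtonN` with `N = card ι - 1`, `recursionC`, `chm_mulFn`, `Ac_chm_zero`, `Ac_chm_eq_zero`, `SF_eq_Lc`.
-/

namespace Pool.Agent.Lib.MP_42948a_nt.WX

open Polynomial Finset BHWeil

/-- the character sum over the extension `F` of `K` -/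
noncomputable def SF {K ι : Type*} [Field K] [Fintype ι] (χ : ι → MulChar K ℂ) (b : ι → K) (F : Type*) [Field F] [Fintype F]
    [Algebra K F] : ℂ :=
  ∑ x : F, ∏ i, χ i (Algebra.norm K (x + algebraMap K F (b i)))

theorem SF_eq_Lc {K F ι : Type*} [Field K] [Fintype K] [DecidableEq K] [Field F] [Fintype F] [DecidableEq F] [Algebra K F]
    [Fintype ι] {j : ℕ} (hj : 0 < j) (hF : Fintype.card F = Fintype.card K ^ j) (χ : ι → MulChar K ℂ) (b : ι → K) :
    SF χ b F = Lc (chm χ b) j := by
  classical
  have hfr : Module.finrank K F = j := by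
    have h1 := Module.card_eq_pow_finrank (K := K) (V := F)
    rw [hF] at h1
    exact (Nat.pow_right_injective (Fintype.one_lt_card (α := K)) h1).symm
  have hdegm : ∀ x : F, (minpoly K x).natDegree ∣ j := by
    intro x
    exact hfr ▸ minpoly.degree_dvd (Algebra.IsIntegral.isIntegral x)
  have hval : ∀ x : F, (∏ i, χ i (Algebra.norm K (x + algebraMap K F (b i)))) =
      chm χ b (minpoly K x) ^ (j / (minpoly K x).natDegree) := by
    intro x
    unfold chm
    rw [← Finset.prod_pow]
    refine Finset.prod_congr rfl fun i _ => ?_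
    rw [← map_pow]
    congr 1
    have h1 : x + algebraMap K F (b i) =
        algebraMap K F (-1) * (algebraMap K F (-(b i)) - x) := by
      rw [map_neg, map_neg, map_one]
      ring
    rw [h1, map_mul, Algebra.norm_algebraMap, hfr, MPadc574G.norm_sub hF, mul_pow, ← pow_mul,
      Nat.mul_div_cancel' (hdegm x)]
  have hdeg : ∀ x ∈ (univ : Finset F), (minpoly K x).natDegree ∈ j.divisors := by
    intro x _
    rw [Nat.mem_divisors]
    exact ⟨hdegm x, hj.ne'⟩
  rw [SF, Finset.sum_congr rfl (fun x _ => hval x), ← Finset.sum_fiberwise_of_maps_to hdeg, Lc]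
  apply Finset.sum_congr rfl
  intro d hd
  rw [Nat.mem_divisors] at hd
  have hmem : ∀ x ∈ (univ : Finset F).filter (fun x => (minpoly K x).natDegree = d),
      minpoly K x ∈ MPadc574G.irr K d := by
    intro x hx
    rw [mem_filter] at hx
    rw [MPadc574G.mem_irr]
    have hi : IsIntegral K x := Algebra.IsIntegral.isIntegral x
    exact ⟨minpoly.monic hi, hx.2, minpoly.irreducible hi⟩
  rw [← Finset.sum_fiberwise_of_maps_to hmem]
  apply Finset.sum_congr rfl
  intro P hP
  obtain ⟨hPm, hPd, hPi⟩ := MPadc574G.mem_irr.1 hP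
  have h1 : ((univ : Finset F).filter (fun x => (minpoly K x).natDegree = d)).filter
      (fun x => minpoly K x = P) = univ.filter (fun x : F => minpoly K x = P) := by
    ext x
    simp only [mem_filter, mem_univ, true_and]
    constructor
    · exact fun h => h.2
    · exact fun h => ⟨by rw [h, hPd], h⟩
  have hdec : ∀ d1 d2 : DecidablePred (fun x : F => minpoly K x = P),
      (@Finset.filter F (fun x => minpoly K x = P) d1 univ).card =
      (@Finset.filter F (fun x => minpoly K x = P) d2 univ).card := fun d1 d2 => by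
    rw [Subsingleton.elim d1 d2]
  have hcard : (univ.filter (fun x : F => minpoly K x = P)).card = d :=
    (hdec _ _).trans (MPadc574G.card_minpoly hF hj hd.1 hP)
  rw [h1, Finset.sum_congr rfl (g := fun _ => chm χ b P ^ (j / d)), Finset.sum_const,
    hcard, nsmul_eq_mul]
  intro x hx
  rw [mem_filter] at hx
  rw [hx.2, hPd]

theorem exists_roots' {K ι : Type*} [Field K] [Fintype K] [DecidableEq K] [Fintype ι] (χ : ι → MulChar K ℂ) (b : ι → K)
    (j : ι) (hj : ∀ i, i ≠ j → b i ≠ b j) (hχ : χ j ≠ 1) :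
    ∃ α : Fin (Fintype.card ι - 1) → ℂ, ∀ (k : ℕ), 0 < k → ∀ (F : Type) [Field F] [Fintype F] [DecidableEq F]
      [Algebra K F], Fintype.card F = Fintype.card K ^ k → SF χ b F = -∑ i, α i ^ k := by
  have hcard : 0 < Fintype.card ι := Fintype.card_pos_iff.mpr ⟨j⟩
  obtain ⟨α, hα⟩ := newtonN (Fintype.card ι - 1) (Ac (chm χ b)) (Lc (chm χ b)) (Ac_chm_zero χ b)
    (fun n hn => Ac_chm_eq_zero χ b j hj hχ n (by omega)) (recursionC (chm χ b) (chm_mulFn χ b))
  refine ⟨α, ?_⟩
  intro k hk F _ _ _ _ hF
  rw [SF_eq_Lc hk hF, hα k hk]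

end Pool.Agent.Lib.MP_42948a_nt.WX
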