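import Pool.Agent.Lib.MP_42948a_nt.WX.G
import Pool.Agent.Lib.MP_42948a_nt.WX.S

/-!
# The bound over all extensions (job T)

`exists_lift`: `ψ y = χ (norm y)` is a multiplicative character of `F` (build the `MulChar`: `map_nonunit'`: a nonunit of a field is `0`, `norm 0 = 0` (`Algebra.norm_zero`), `MulChar.map_zero`; or `MulChar.ofUnitHom`), and
`orderOf ψ = orderOf χ` because the norm is surjective (`FiniteField.norm_surjective K F` in `Mathlib/FieldTheory/Finite/GaloisField.lean`): `ψ ^ k = 1 ↔ χ ^ k = 1` for all `k` (`MulChar.ext`, `orderOf_eq_orderOf_iff`).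
`SF_bound`: let `m = orderOf χ`, finite and `≥ 2` since `χ ≠ 1` (`MulChar.orderOf_pos` or `orderOf_pos_iff`, finiteness of `MulChar K ℂ`; `orderOf_eq_one_iff`). `C = ` the constant of `weil_char' m (r m + 1)`. For `F`, `ψ`:
`e i = 1` for `i = inl _` and `m - 1` for `i = inr _`, `f = ∏_i (X + C (algebraMap (b i))) ^ e i`, as in the proof of `weil_tuple` in `BU/WH.lean` (copy its private lemmas `WH_mult`, `WH_deg`): the root `- algebraMap (b j)`
has multiplicity `e j` (`algebraMap` is injective), coprime to `m`; `natDegree f ≤ r m + 1`; and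
`∏_i (Sum.elim (fun _ => χ) (fun _ => χ⁻¹) i) (norm (x + b i)) = ψ (f.eval x)`: `ψ (y ^ (m - 1)) = χ (norm y) ^ (m - 1) = χ⁻¹ (norm y)` (for `norm y ≠ 0`: `χ (..) ^ m = 1`; for `norm y = 0` both sides are `0`, `m - 1 ≥ 1`;
`χ⁻¹ = χ ^ (m - 1)`, `MulChar.pow_apply'`). `Fintype.prod_sum_type`.
-/

namespace Pool.Agent.Lib.MP_42948a_nt.WX

open Polynomial Finset

theorem exists_lift {K F : Type*} [Field K] [Fintype K] [Field F] [Fintype F] [Algebra K F] (χ : MulChar K ℂ) :
    ∃ ψ : MulChar F ℂ, (∀ y : F, ψ y = χ (Algebra.norm K y)) ∧ orderOf ψ = orderOf χ := by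
  let ψ : MulChar F ℂ :=
    { toFun := fun y => χ (Algebra.norm K y)
      map_one' := by rw [map_one, map_one]
      map_mul' := fun y z => by rw [map_mul, map_mul]
      map_nonunit' := fun y hy => by
        have h0 : y = 0 := by
          by_contra h
          exact hy (isUnit_iff_ne_zero.2 h)
        show χ (Algebra.norm K y) = 0
        rw [h0, Algebra.norm_zero, MulChar.map_zero] }
  have hψ : ∀ y : F, ψ y = χ (Algebra.norm K y) := fun _ => rfl
  refine ⟨ψ, hψ, ?_⟩
  rw [orderOf_eq_orderOf_iff]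
  intro k
  constructor
  · intro h
    apply MulChar.ext
    intro a
    obtain ⟨y, hy⟩ := FiniteField.norm_surjective K F (a : K)
    have hy0 : y ≠ 0 := by
      rintro rfl
      rw [Algebra.norm_zero] at hy
      exact a.ne_zero hy.symm
    rw [MulChar.pow_apply_coe, MulChar.one_apply_coe, ← hy, ← hψ]
    have h1 := congrArg (fun φ : MulChar F ℂ => φ ((Units.mk0 y hy0 : Fˣ) : F)) h
    simp only [MulChar.pow_apply_coe, MulChar.one_apply_coe] at h1
    exact h1
  · intro h
    apply MulChar.ext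
    intro a
    have ha0 : Algebra.norm K (a : F) ≠ 0 := by
      rw [Ne, Algebra.norm_eq_zero_iff]
      exact a.ne_zero
    rw [MulChar.pow_apply_coe, MulChar.one_apply_coe, hψ]
    have h1 := congrArg (fun φ : MulChar K ℂ => φ ((Units.mk0 _ ha0 : Kˣ) : K)) h
    simp only [MulChar.pow_apply_coe, MulChar.one_apply_coe] at h1
    exact h1

private theorem T_mult {K ι : Type*} [Field K] [DecidableEq ι] (s : Finset ι) (b : ι → K) (e : ι → ℕ) (j : ι) (hj : j ∈ s)
    (hb : ∀ i, i ≠ j → b i ≠ b j) :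
    (∏ i ∈ s, (X + C (b i)) ^ e i : K[X]).rootMultiplicity (- b j) = e j := by
  classical
  have hne : ∀ t : Finset ι, (∏ i ∈ t, (X + C (b i)) ^ e i : K[X]) ≠ 0 := by
    intro t
    apply Monic.ne_zero
    exact monic_prod_of_monic _ _ (fun i _ => (monic_X_add_C (b i)).pow _)
  rw [← mul_prod_erase s _ hj, rootMultiplicity_mul]
  · have h1 : ((X + C (b j)) ^ e j : K[X]) = (X - C (- b j)) ^ e j := by
      rw [map_neg, sub_neg_eq_add]
    rw [h1, rootMultiplicity_X_sub_C_pow]
    rw [rootMultiplicity_eq_zero, add_zero]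
    rw [IsRoot.def, eval_prod, prod_eq_zero_iff]
    rintro ⟨i, hi, h0⟩
    rw [eval_pow, eval_add, eval_X, eval_C] at h0
    have h3 : -b j + b i = 0 := by
      by_contra h4
      exact pow_ne_zero _ h4 h0
    apply hb i (ne_of_mem_erase hi)
    linear_combination h3
  · exact mul_ne_zero (((monic_X_add_C (b j)).pow _).ne_zero) (hne _)

private theorem T_deg {K ι : Type*} [Field K] (s : Finset ι) (b : ι → K) (e : ι → ℕ) :
    (∏ i ∈ s, (X + C (b i)) ^ e i : K[X]).natDegree = ∑ i ∈ s, e i := by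
  rw [natDegree_prod_of_monic _ _ (fun i _ => (monic_X_add_C (b i)).pow _)]
  apply sum_congr rfl
  intro i _
  rw [(monic_X_add_C (b i)).natDegree_pow, natDegree_X_add_C, mul_one]

theorem SF_bound {K : Type} [Field K] [Fintype K] [DecidableEq K] {r : ℕ} (χ : MulChar K ℂ) (hχ : χ ≠ 1)
    (b : Fin r ⊕ Fin r → K) (j : Fin r ⊕ Fin r) (hj : ∀ i, i ≠ j → b i ≠ b j) :
    ∃ C : ℝ, ∀ (F : Type) [Field F] [Fintype F] [DecidableEq F] [Algebra K F],
      ‖SF (Sum.elim (fun _ : Fin r => χ) (fun _ : Fin r => χ⁻¹)) b F‖ ≤ C * √(Fintype.card F : ℝ) := by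
  classical
  have hpos : 0 < orderOf χ := by
    rw [orderOf_pos_iff, isOfFinOrder_iff_pow_eq_one]
    exact ⟨Fintype.card Kˣ, Fintype.card_pos, MulChar.pow_card_eq_one χ⟩
  have hne1 : orderOf χ ≠ 1 := fun h => hχ (orderOf_eq_one_iff.1 h)
  have h2 : 2 ≤ orderOf χ := by omega
  obtain ⟨C, -, hC⟩ := weil_char' (orderOf χ) (r * orderOf χ + 1) h2 (by omega)
  refine ⟨C, fun F _ _ _ _ => ?_⟩
  obtain ⟨ψ, hψ, hord⟩ := exists_lift (F := F) χ
  have hinv : ∀ y : K, χ⁻¹ y = χ y ^ (orderOf χ - 1) := by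
    intro y
    have h3 : χ⁻¹ = χ ^ (orderOf χ - 1) := by
      rw [inv_eq_iff_mul_eq_one, ← pow_succ', Nat.sub_add_cancel (by omega), pow_orderOf_eq_one]
    rw [h3, MulChar.pow_apply' _ (by omega)]
  set e : Fin r ⊕ Fin r → ℕ := Sum.elim (fun _ => 1) (fun _ => orderOf χ - 1) with he
  set b' : Fin r ⊕ Fin r → F := fun i => algebraMap K F (b i) with hb'
  have hj' : ∀ i, i ≠ j → b' i ≠ b' j := fun i hi h => hj i hi ((algebraMap K F).injective h)
  set f : F[X] := ∏ i : Fin r ⊕ Fin r, (X + Polynomial.C (b' i)) ^ e i with hf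
  have hf0 : f ≠ 0 := by
    apply Monic.ne_zero
    exact monic_prod_of_monic _ _ (fun i _ => (monic_X_add_C (b' i)).pow _)
  have hdeg : f.natDegree ≤ r * orderOf χ + 1 := by
    rw [hf, T_deg, Fintype.sum_sum_type]
    simp only [he, Sum.elim_inl, Sum.elim_inr, sum_const, card_univ, Fintype.card_fin, smul_eq_mul, mul_one]
    have h3 : r + r * (orderOf χ - 1) = r * orderOf χ := by
      obtain ⟨k, hk⟩ := Nat.exists_eq_add_of_le h2
      rw [hk, show 2 + k - 1 = k + 1 by omega]
      ring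
    omega
  have hmul : f.rootMultiplicity (- b' j) = e j := T_mult univ b' e j (mem_univ _) hj'
  have hcop : Nat.Coprime (f.rootMultiplicity (- b' j)) (orderOf χ) := by
    rw [hmul]
    rcases j with j | j
    · simp [he]
    · simp only [he, Sum.elim_inr]
      rw [Nat.coprime_comm]
      exact (Nat.coprime_self_sub_right (by omega)).2 (Nat.coprime_one_right _)
  have hsum : SF (Sum.elim (fun _ : Fin r => χ) (fun _ : Fin r => χ⁻¹)) b F =
      ∑ x : F, ψ (f.eval x) := by
    unfold SF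
    refine sum_congr rfl fun x _ => ?_
    rw [hf, eval_prod, map_prod]
    refine prod_congr rfl fun i _ => ?_
    rw [eval_pow, eval_add, eval_X, eval_C, map_pow, hψ]
    rcases i with i | i
    · simp only [he, Sum.elim_inl, pow_one, hb']
    · simp only [he, Sum.elim_inr, hb']
      exact hinv _
  rw [hsum]
  exact hC F ψ hord f hdeg hf0 (- b' j) hcop

end Pool.Agent.Lib.MP_42948a_nt.WX
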