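import Pool.Agent.Lib.MP_adc574_ag_G2.Root
import Pool.Agent.Lib.MP_42948a_nt.WX.T

/-!
# The Weil bound for all characters (job Main)

`weil_all` with `C = 2 r`. Let `K = ZMod p`, `α : Fin (2 r - 1) → ℂ` from `exists_roots'` (`card (Fin r ⊕ Fin r) = r + r`) for the family `Sum.elim (fun _ => χ) (fun _ => χ⁻¹)` (`χ⁻¹ ≠ 1`), `C0` from `SF_bound`. For every `k ≥ 1` there is a
field `F : Type` with `card F = p ^ k` and `Algebra (ZMod p) F`: `GaloisField p k` (`GaloisField.card p k hk : Nat.card = p ^ k`, `Fintype.ofFinite`, classical decidability; compare `exists_field` in `MP_adc574_ag_G2/Key.lean` and the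
end of `Weil.lean` there). So `‖∑ α_i ^ k‖ = ‖SF‖ ≤ C0 √(p ^ k) = C0 (√p) ^ k` and `MPadc574G.root_bound` (`ρ = √p`, `k₀ = 1`) gives `‖α_i‖ ≤ √p`. With `k = 1`, `F = ZMod p` (`Algebra.norm` of `ZMod p` over itself is the identity:
`Algebra.norm_self_apply`; `algebraMap = id`) and `χ⁻¹ y = conj (χ y)` (`MulChar.star_eq_inv`, `MulChar.star_apply'` in `Mathlib/NumberTheory/MulChar/Lemmas.lean`) the sum is `SF .. (ZMod p) = -∑ α_i`
(`Fintype.prod_sum_type`), of norm `≤ (2 r - 1) √p`.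
-/

namespace Pool.Agent.Lib.MP_42948a_nt.WX

open Polynomial Finset

/-- the constant `C` works in the Weil bound for products of `r + r` shifts of characters -/
def WeilAll (r : ℕ) (C : ℝ) : Prop :=
  ∀ (p : ℕ) [Fact p.Prime] (χ : MulChar (ZMod p) ℂ), χ ≠ 1 →
    ∀ (b : Fin r ⊕ Fin r → ZMod p) (j : Fin r ⊕ Fin r), (∀ i, i ≠ j → b i ≠ b j) →
    ‖∑ x : ZMod p, (∏ i : Fin r, χ (x + b (Sum.inl i))) * ∏ i : Fin r, (starRingEnd ℂ) (χ (x + b (Sum.inr i)))‖ ≤ C * √(p : ℝ)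

private theorem Main_inv {p : ℕ} [Fact p.Prime] (χ : MulChar (ZMod p) ℂ) (y : ZMod p) :
    χ⁻¹ y = (starRingEnd ℂ) (χ y) := by
  exact (MulChar.star_apply' χ y).symm

private theorem Main_SF {p r : ℕ} [Fact p.Prime] (χ : MulChar (ZMod p) ℂ)
    (b : Fin r ⊕ Fin r → ZMod p) :
    SF (Sum.elim (fun _ : Fin r => χ) (fun _ : Fin r => χ⁻¹)) b (ZMod p) =
      ∑ x : ZMod p, (∏ i : Fin r, χ (x + b (Sum.inl i))) *
        ∏ i : Fin r, (starRingEnd ℂ) (χ (x + b (Sum.inr i))) := by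
  unfold SF
  refine Finset.sum_congr rfl fun x _ => ?_
  rw [Fintype.prod_sum_type]
  refine congrArg₂ (· * ·) ?_ ?_
  · refine Finset.prod_congr rfl fun i _ => ?_
    rw [Sum.elim_inl, Algebra.norm_self, MonoidHom.id_apply, Algebra.algebraMap_self_apply]
  · refine Finset.prod_congr rfl fun i _ => ?_
    rw [Sum.elim_inr, Algebra.norm_self, MonoidHom.id_apply, Algebra.algebraMap_self_apply, Main_inv]

private theorem Main_sqrt (p k : ℕ) : √(((p ^ k : ℕ) : ℝ)) = (√(p : ℝ)) ^ k := by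
  have h : ((p ^ k : ℕ) : ℝ) = (√(p : ℝ)) ^ k * (√(p : ℝ)) ^ k := by
    rw [← mul_pow, Real.mul_self_sqrt (Nat.cast_nonneg p)]
    push_cast
    rfl
  rw [h, Real.sqrt_mul_self (by positivity)]

theorem weil_all (r : ℕ) (hr : 1 ≤ r) : WeilAll r (2 * r) := by
  intro p _ χ hχ b j hj
  classical
  have hp0 : 0 < p := (Fact.out : p.Prime).pos
  have hXj : (Sum.elim (fun _ : Fin r => χ) (fun _ : Fin r => χ⁻¹)) j ≠ 1 := by
    rcases j with j | j
    · rw [Sum.elim_inl]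
      exact hχ
    · rw [Sum.elim_inr]
      exact inv_ne_one.2 hχ
  obtain ⟨α, hα⟩ := exists_roots' (Sum.elim (fun _ : Fin r => χ) (fun _ : Fin r => χ⁻¹)) b j hj hXj
  obtain ⟨C0, hC0⟩ := SF_bound χ hχ b j hj
  have hρ : 0 < √(p : ℝ) := Real.sqrt_pos.2 (by exact_mod_cast hp0)
  have hbd : ∀ i, ‖α i‖ ≤ √(p : ℝ) := by
    intro i
    refine MPadc574G.root_bound α (C := C0) hρ 1 ?_ i
    intro k hk
    let F := GaloisField p k
    have hFin : Finite F := inferInstance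
    let _ : Fintype F := Fintype.ofFinite F
    have hcard : Fintype.card F = p ^ k := by
      rw [← Nat.card_eq_fintype_card]
      exact GaloisField.card p k (by omega)
    have h1 := hα k (by omega) F (by rw [hcard, ZMod.card])
    have h2 := hC0 F
    rw [h1, norm_neg, hcard, Main_sqrt] at h2
    exact h2
  have h1 := hα 1 one_pos (ZMod p) (by rw [pow_one])
  rw [Main_SF] at h1
  rw [h1, norm_neg]
  have h2 : ‖∑ i, α i ^ 1‖ ≤ ∑ _i : Fin (Fintype.card (Fin r ⊕ Fin r) - 1), √(p : ℝ) := by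
    refine (norm_sum_le _ _).trans (Finset.sum_le_sum fun i _ => ?_)
    rw [pow_one]
    exact hbd i
  refine h2.trans ?_
  rw [Finset.sum_const, Finset.card_univ, Fintype.card_fin, nsmul_eq_mul]
  refine mul_le_mul_of_nonneg_right ?_ hρ.le
  have h3 : Fintype.card (Fin r ⊕ Fin r) - 1 ≤ 2 * r := by
    rw [Fintype.card_sum, Fintype.card_fin]
    omega
  exact_mod_cast h3

end Pool.Agent.Lib.MP_42948a_nt.WX
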