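import Mathlib

/-!
# Linear algebra for the auxiliary polynomial (job L)

The proof of `exists_h` in `BU/WC.lean` with `H j k` in place of `Hd f (L + j * P) k` and `hH` in place of `Hd_degree` (copy and adapt).
-/

namespace Pool.Agent.Lib.MP_42948a_nt.WX

open Polynomial Finset

theorem exists_h' {F : Type*} [Field F] (n m A B L : ℕ) (ζ : F) (H : ℕ → ℕ → F[X] →ₗ[F] F[X])
    (hH : ∀ (j k : ℕ) (h : F[X]), h.degree < (A : WithBot ℕ) → (H j k h).degree < ((A + k * n : ℕ) : WithBot ℕ))
    (hdim : ∑ k ∈ range L, (A + B + k * n) < m * B * A) :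
    ∃ h : Fin m → Fin B → F[X], (∀ j l, (h j l).degree < (A : WithBot ℕ)) ∧ (∃ j l, h j l ≠ 0) ∧
      ∀ k < L, ∑ j : Fin m, ∑ l : Fin B, C (ζ ^ (j : ℕ)) * X ^ (l : ℕ) * H (j : ℕ) k (h j l) = 0 := by
  classical
  have hfr : ∀ N : ℕ, Module.finrank F (degreeLT F N) = N := by
    intro N
    rw [(degreeLTEquiv F N).finrank_eq, Module.finrank_fin_fun]
  have hfd : ∀ N : ℕ, Module.Finite F (degreeLT F N) := fun N =>
    Module.Finite.equiv (degreeLTEquiv F N).symm
  -- the pieces
  let T : (k : Fin L) → (Fin m → Fin B → degreeLT F A) →ₗ[F] F[X] := fun k =>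
    ∑ j : Fin m, ∑ l : Fin B, (LinearMap.mulLeft F (C (ζ ^ (j : ℕ)) * X ^ (l : ℕ))) ∘ₗ
      (H (j : ℕ) k) ∘ₗ (degreeLT F A).subtype ∘ₗ (LinearMap.proj l) ∘ₗ
        (LinearMap.proj j)
  have hT : ∀ (k : Fin L) (h : Fin m → Fin B → degreeLT F A), T k h =
      ∑ j : Fin m, ∑ l : Fin B, C (ζ ^ (j : ℕ)) * X ^ (l : ℕ) *
        H (j : ℕ) k (h j l : F[X]) := by
    intro k h
    simp only [T, LinearMap.sum_apply, LinearMap.comp_apply, LinearMap.mulLeft_apply,
      LinearMap.proj_apply, Submodule.subtype_apply]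
  have hTdeg : ∀ (k : Fin L) (h : Fin m → Fin B → degreeLT F A),
      T k h ∈ degreeLT F (A + B + k * n) := by
    intro k h
    rw [hT]
    refine Submodule.sum_mem _ fun j _ => Submodule.sum_mem _ fun l _ => ?_
    rw [mem_degreeLT]
    have h1 := hH (j : ℕ) k (h j l : F[X]) (mem_degreeLT.mp (h j l).2)
    generalize H (j : ℕ) k (h j l : F[X]) = G at h1 ⊢
    rcases eq_or_ne G 0 with h0 | h0
    · rw [h0, mul_zero, degree_zero]
      exact WithBot.bot_lt_coe _
    · have h2 : G.natDegree < A + k * n := by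
        rw [degree_eq_natDegree h0] at h1
        exact_mod_cast h1
      have h3 : (C (ζ ^ (j : ℕ)) * X ^ (l : ℕ) * G).natDegree ≤ (l : ℕ) + G.natDegree := by
        refine natDegree_mul_le.trans (Nat.add_le_add_right ?_ _)
        exact (natDegree_C_mul_le _ _).trans (natDegree_X_pow_le _)
      refine lt_of_le_of_lt (degree_le_of_natDegree_le h3) ?_
      have h4 : (l : ℕ) + G.natDegree < A + B + k * n := by
        have := l.2
        omega
      exact_mod_cast h4
  let Φ : (Fin m → Fin B → degreeLT F A) →ₗ[F] ((k : Fin L) → degreeLT F (A + B + k * n)) :=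
    LinearMap.pi fun k => (T k).codRestrict _ (hTdeg k)
  have hV : Module.finrank F (Fin m → Fin B → degreeLT F A) = m * B * A := by
    rw [Module.finrank_pi_fintype]
    simp only [Module.finrank_pi_fintype, hfr]
    simp [mul_assoc]
  have hW : Module.finrank F ((k : Fin L) → degreeLT F (A + B + k * n)) =
      ∑ k ∈ range L, (A + B + k * n) := by
    rw [Module.finrank_pi_fintype, ← Fin.sum_univ_eq_sum_range]
    exact sum_congr rfl fun k _ => hfr _
  have hker : LinearMap.ker Φ ≠ ⊥ := by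
    apply LinearMap.ker_ne_bot_of_finrank_lt
    rw [hV, hW]
    exact hdim
  obtain ⟨h, hmem, hne⟩ := Submodule.exists_mem_ne_zero_of_ne_bot hker
  refine ⟨fun j l => (h j l : F[X]), fun j l => mem_degreeLT.mp (h j l).2, ?_, ?_⟩
  · by_contra hcon
    push Not at hcon
    apply hne
    funext j l
    exact Subtype.ext (hcon j l)
  · intro k hk
    rw [LinearMap.mem_ker] at hmem
    have h1 := congrFun hmem ⟨k, hk⟩
    have h2 : T ⟨k, hk⟩ h = 0 := congrArg Subtype.val h1
    rw [hT] at h2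
    exact h2

end Pool.Agent.Lib.MP_42948a_nt.WX
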