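import Pool.Agent.Lib.MP_42948a_nt.WX.H
import Pool.Agent.Lib.MP_42948a_nt.WX.L
import Pool.Agent.Lib.MP_42948a_nt.BU.WB

/-!
# Stepanov's count over a finite field (job C)

As `card_mul_le`, `stepanov_card` in `BU/WD.lean` (copy and adapt), with `F` in place of `ZMod p`, `q = card F` in place of `p` and Hasse derivatives in place of iterated derivatives.
`card_mul_le'`: for `x ∈ S`: `(X - C x) ^ L ∣ Ψ`: `taylor x Ψ` has coefficients `(hasseDeriv k Ψ).eval x` (`taylor_coeff`), so `X ^ L ∣ taylor x Ψ` (`X_pow_dvd_iff`), and go back (`taylor (-x)`; or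
`sum_taylor_eq`); so `L ≤ rootMultiplicity x Ψ` (`le_rootMultiplicity_iff`); the rest as in `WD`.
`stepanov_card'`: `card F = p ^ a` (`FiniteField.card'` or `FiniteField.card F p`, `p = ringChar F`; `CharP`). For `j, k` with `k ≤ L` take `H j k` from `hasse_op f n hf (L + j P) k` (for `k > L` take `0`: `H j k = if h : k ≤ L then choose .. else 0`;
the degree bound for `0`: `degree 0 = ⊥`), `exists_h'`, `Ψ = f ^ L * ∑_j ∑_l h j l * X ^ (q l) * f ^ (j P) = ∑_{j,l} f ^ (L + j P) * h j l * X ^ (q l)`, not zero by `BU.stepanov_ne` (it is stated for every field and every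
`p = m P + 1`: use it with `q`). For `k < L ≤ q`: `hasseDeriv k Ψ = ∑_{j,l} f ^ (L + j P - k) * H j k (h j l) * X ^ (q l)` (`hasse_X`, `hasse_op`; `map_sum`), whose value at `x` is
`f(x) ^ (L - k) ∑ ζ ^ j (H ..)(x) x ^ l = 0` (`f(x) ^ P = ζ`, `x ^ (q l) = x ^ l`: `FiniteField.pow_card`). Degree as in `WD`.
-/

namespace Pool.Agent.Lib.MP_42948a_nt.WX

open Polynomial Finset

theorem card_mul_le' {F : Type*} [Field F] [DecidableEq F] (Ψ : F[X]) (hΨ : Ψ ≠ 0) (L : ℕ) (S : Finset F)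
    (hS : ∀ x ∈ S, ∀ k < L, (hasseDeriv k Ψ).eval x = 0) : S.card * L ≤ Ψ.natDegree := by
  classical
  have hm : ∀ x ∈ S, L ≤ Ψ.roots.count x := by
    intro x hx
    rw [count_roots, le_rootMultiplicity_iff hΨ]
    have h1 : X ^ L ∣ taylor x Ψ := by
      rw [X_pow_dvd_iff]
      intro d hd
      rw [taylor_coeff]
      exact hS x hx d hd
    obtain ⟨g, hg⟩ := h1
    refine ⟨taylor (-x) g, ?_⟩
    have h2 : taylor (-x) (taylor x Ψ) = Ψ := by
      rw [taylor_taylor, neg_add_cancel, taylor_zero]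
    have h3 : taylor (-x) (X ^ L * g) = (X - C x) ^ L * taylor (-x) g := by
      rw [taylor_mul, taylor_pow, taylor_X, C_neg, ← sub_eq_add_neg]
    rw [← h3, ← hg, h2]
  have h1 : S.card * L ≤ ∑ x ∈ S, Ψ.roots.count x := by
    rw [← smul_eq_mul, ← Finset.sum_const]
    exact Finset.sum_le_sum hm
  have h3 : ∑ y ∈ S, Ψ.roots.count y ≤ ∑ y ∈ S ∪ Ψ.roots.toFinset, Ψ.roots.count y :=
    Finset.sum_le_sum_of_subset Finset.subset_union_left
  have h4 : ∑ y ∈ Ψ.roots.toFinset, Ψ.roots.count y = ∑ y ∈ S ∪ Ψ.roots.toFinset, Ψ.roots.count y := by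
    refine Finset.sum_subset Finset.subset_union_right fun y _ hy => ?_
    rw [Multiset.mem_toFinset] at hy
    exact Multiset.count_eq_zero_of_notMem hy
  rw [← h4, Multiset.toFinset_sum_count_eq] at h3
  exact (h1.trans h3).trans (card_roots' Ψ)

theorem stepanov_card' {F : Type*} [Field F] [Fintype F] [DecidableEq F] {m n A B L P e : ℕ} (hm : 2 ≤ m) (hn : 1 ≤ n)
    (hB : 1 ≤ B) (hp : Fintype.card F = m * P + 1) (f f1 : F[X]) (hf : f.natDegree ≤ n) (hf1 : f = X ^ e * f1)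
    (h0 : f1.coeff 0 ≠ 0) (hcop : Nat.Coprime e m) (hA : A + n ≤ P + 1) (hL : L ≤ Fintype.card F)
    (hdim : ∑ k ∈ range L, (A + B + k * n) < m * B * A) (ζ : F) (hζ : ζ ≠ 0) :
    (univ.filter (fun x : F => (f.eval x) ^ P = ζ)).card * L ≤
      n * L + A + m * (n * P) + Fintype.card F * (B - 1) := by
  classical
  have hf10 : f1 ≠ 0 := by
    intro h
    rw [h, coeff_zero] at h0
    exact h0 rfl
  have hXe : (X ^ e : F[X]) ≠ 0 := pow_ne_zero _ X_ne_zero
  have hf0 : f ≠ 0 := by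
    rw [hf1]
    exact mul_ne_zero hXe hf10
  have hen : e ≤ n := by
    have h1 : f.natDegree = e + f1.natDegree := by
      rw [hf1, natDegree_mul hXe hf10, natDegree_X_pow]
    omega
  -- the operators
  have hHex : ∀ j k : ℕ, ∃ H : F[X] →ₗ[F] F[X],
      (k ≤ L → ∀ h : F[X], hasseDeriv k (f ^ (L + j * P) * h) = f ^ (L + j * P - k) * H h) ∧
      ∀ (A : ℕ) (h : F[X]), h.degree < (A : WithBot ℕ) → (H h).degree < ((A + k * n : ℕ) : WithBot ℕ) := by
    intro j k
    by_cases hk : k ≤ L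
    · obtain ⟨H, h1, h2⟩ := hasse_op f n hf (L + j * P) k (by omega)
      exact ⟨H, fun _ => h1, h2⟩
    · refine ⟨0, fun h1 => absurd h1 hk, fun A h _ => ?_⟩
      rw [LinearMap.zero_apply, degree_zero]
      exact WithBot.bot_lt_coe _
  choose H hH1 hH2 using hHex
  obtain ⟨h, hdeg, hne, hid⟩ := exists_h' n m A B L ζ H (fun j k => hH2 j k A) hdim
  set q := Fintype.card F with hq
  have hΦ := BU.stepanov_ne (p := q) hm hp f f1 hf1 h0 hcop (by omega) h hdeg hne
  obtain ⟨pp, hpp⟩ := CharP.exists F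
  have := hpp
  have hpr : Fact pp.Prime := ⟨CharP.char_is_prime F pp⟩
  obtain ⟨aa, -, haa⟩ := FiniteField.card F pp
  obtain ⟨Ψ, hΨdef⟩ : ∃ Ψ : F[X], Ψ =
      f ^ L * ∑ j : Fin m, ∑ l : Fin B, h j l * X ^ (q * (l : ℕ)) * f ^ ((j : ℕ) * P) := ⟨_, rfl⟩
  have hΨ : Ψ ≠ 0 := by
    rw [hΨdef]
    exact mul_ne_zero (pow_ne_zero _ hf0) hΦ
  have hΨ2 : Ψ = ∑ j : Fin m, ∑ l : Fin B, f ^ (L + (j : ℕ) * P) * h j l * X ^ (q * (l : ℕ)) := by
    rw [hΨdef, mul_sum]
    refine sum_congr rfl fun j _ => ?_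
    rw [mul_sum]
    refine sum_congr rfl fun l _ => ?_
    rw [pow_add]
    ring
  have hX : ∀ (g : F[X]) (k l : ℕ), k < q →
      hasseDeriv k (g * X ^ (q * l)) = hasseDeriv k g * X ^ (q * l) := by
    intro g k l hk
    have h1 := hasse_X (p := pp) (a := (aa : ℕ)) g k l (by rw [← haa]; exact hk)
    rw [← haa] at h1
    exact h1
  have hder : ∀ x ∈ univ.filter (fun x : F => (f.eval x) ^ P = ζ), ∀ k < L,
      (hasseDeriv k Ψ).eval x = 0 := by
    intro x hx k hk
    have hx' : (f.eval x) ^ P = ζ := (mem_filter.1 hx).2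
    rw [hΨ2, map_sum, eval_finsetSum]
    have h1 : ∀ j : Fin m, (hasseDeriv k (∑ l : Fin B, f ^ (L + (j : ℕ) * P) * h j l * X ^ (q * (l : ℕ)))).eval x =
        (f.eval x) ^ (L - k) *
          (∑ l : Fin B, C (ζ ^ (j : ℕ)) * X ^ (l : ℕ) * H (j : ℕ) k (h j l)).eval x := by
      intro j
      rw [map_sum, eval_finsetSum, eval_finsetSum, mul_sum]
      refine sum_congr rfl fun l _ => ?_
      rw [hX _ k l (by omega), hH1 (j : ℕ) k hk.le (h j l)]
      simp only [eval_mul, eval_pow, eval_X, eval_C]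
      have h2 : L + (j : ℕ) * P - k = (L - k) + P * (j : ℕ) := by
        rw [Nat.mul_comm P]
        omega
      have h3 : x ^ q = x := FiniteField.pow_card x
      rw [h2, pow_add, pow_mul, hx', pow_mul, h3]
      ring
    rw [sum_congr rfl fun j _ => h1 j, ← mul_sum, ← eval_finsetSum, hid k hk, eval_zero, mul_zero]
  have hcard := card_mul_le' Ψ hΨ L _ hder
  refine hcard.trans ?_
  have hfp : ∀ N : ℕ, (f ^ N).natDegree ≤ N * n := fun N =>
    natDegree_pow_le.trans (Nat.mul_le_mul_left N hf)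
  rw [hΨdef]
  refine natDegree_mul_le.trans ?_
  have h2 : (∑ j : Fin m, ∑ l : Fin B, h j l * X ^ (q * (l : ℕ)) * f ^ ((j : ℕ) * P)).natDegree ≤
      A + q * (B - 1) + m * (n * P) := by
    refine natDegree_sum_le_of_forall_le _ _ fun j _ => ?_
    refine natDegree_sum_le_of_forall_le _ _ fun l _ => ?_
    refine natDegree_mul_le.trans (Nat.add_le_add (natDegree_mul_le.trans (Nat.add_le_add ?_ ?_)) ?_)
    · exact natDegree_le_of_degree_le (hdeg j l).le
    · rw [natDegree_X_pow]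
      refine Nat.mul_le_mul_left q ?_
      have := l.2
      omega
    · refine (hfp _).trans ?_
      have h3 : (j : ℕ) ≤ m := j.2.le
      calc (j : ℕ) * P * n = (j : ℕ) * (n * P) := by ring
        _ ≤ m * (n * P) := Nat.mul_le_mul_right _ h3
  have h3 := hfp L
  have h4 : L * n = n * L := Nat.mul_comm _ _
  omega

end Pool.Agent.Lib.MP_42948a_nt.WX
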