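import Pool.Agent.Lib.MP_42948a_nt.WX.C

/-!
# The choice of the parameters (job D)

Copy `stepanov_count` of `BU/WE.lean` with `card F` in place of `p` (the only properties of `p` used there: `p = m P + 1` and the bound of the count by `p`; `stepanov_card'` in place of `stepanov_card`).
-/

namespace Pool.Agent.Lib.MP_42948a_nt.WX

open Polynomial Finset

theorem stepanov_count' (m n : ℕ) (hm : 2 ≤ m) (hn : 1 ≤ n) :
    ∃ C : ℝ, 0 ≤ C ∧ ∀ (F : Type) [Field F] [Fintype F] [DecidableEq F] (P e : ℕ), Fintype.card F = m * P + 1 →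
      ∀ f f1 : F[X], f.natDegree ≤ n → f = X ^ e * f1 → f1.coeff 0 ≠ 0 → Nat.Coprime e m → ∀ ζ : F, ζ ≠ 0 →
      ((univ.filter (fun x : F => (f.eval x) ^ P = ζ)).card : ℝ) ≤
        (Fintype.card F : ℝ) / m + C * √(Fintype.card F : ℝ) := by
  obtain ⟨t, ht⟩ : ∃ t : ℕ, t = 2 * m ^ 2 + n * m ^ 3 + 1 := ⟨_, rfl⟩
  refine ⟨2 * t + (4 * t + 5 * n), by positivity, ?_⟩
  intro F _ _ _ P e hpP0 f f1 hf hf1 h0 hcop ζ hζ
  have hstep := fun (A B L : ℕ) => stepanov_card' (F := F) (m := m) (n := n) (A := A) (B := B) (L := L) (P := P) (e := e)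
  have hcard0 := card_le_univ (univ.filter (fun x : F => (f.eval x) ^ P = ζ))
  obtain ⟨p, hpd⟩ : ∃ p, p = Fintype.card F := ⟨_, rfl⟩
  rw [← hpd] at hpP0 hcard0 ⊢
  have hpP : p = m * P + 1 := hpP0
  simp only [← hpd] at hstep
  have hmR : (2 : ℝ) ≤ m := by exact_mod_cast hm
  have hq0 : (0 : ℝ) ≤ p := Nat.cast_nonneg p
  have hr0 : 0 ≤ √(p : ℝ) := Real.sqrt_nonneg _
  have hrr : √(p : ℝ) * √(p : ℝ) = p := Real.mul_self_sqrt hq0
  set r : ℝ := √(p : ℝ) with hr
  have htR : (0 : ℝ) ≤ t := Nat.cast_nonneg t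
  have hnR : (1 : ℝ) ≤ n := by exact_mod_cast hn
  have hpm : (0 : ℝ) ≤ (p : ℝ) / m := by positivity
  have hcard : ((univ.filter (fun x : F => (f.eval x) ^ P = ζ)).card : ℝ) ≤ p := by
    exact_mod_cast hcard0
  by_cases hsmall : p < 4 * t ^ 2
  · -- small `p`
    have h1 : r ≤ 2 * t := by
      rw [hr, Real.sqrt_le_left (by positivity)]
      have : (p : ℝ) < 4 * (t : ℝ) ^ 2 := by exact_mod_cast hsmall
      have e1 : (2 * (t : ℝ)) ^ 2 = 4 * (t : ℝ) ^ 2 := by ring
      rw [e1]; exact this.le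
    have h2 : (p : ℝ) ≤ 2 * t * r := by rw [← hrr]; exact mul_le_mul_of_nonneg_right h1 hr0
    have h3 : 0 ≤ (4 * (t : ℝ) + 5 * n) * r := by positivity
    calc _ ≤ (p : ℝ) := hcard
      _ ≤ 2 * t * r := h2
      _ ≤ (p : ℝ) / m + (2 * t + (4 * t + 5 * n)) * r := by
        rw [add_mul]; linarith
  · push Not at hsmall
    have ht1 : 1 ≤ t := by rw [ht]; omega
    have ht2 : m ≤ t := by
      have h1 : m ≤ m ^ 2 := Nat.le_self_pow two_ne_zero m
      rw [ht]; omega
    obtain ⟨s, hs⟩ : ∃ s : ℕ, s = Nat.sqrt p := ⟨_, rfl⟩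
    have hs1 : s * s ≤ p := by rw [hs]; exact Nat.sqrt_le p
    have hs2 : p < (s + 1) * (s + 1) := by rw [hs]; exact Nat.lt_succ_sqrt p
    have hs3 : 2 * t ≤ s := by
      rw [hs, Nat.le_sqrt]
      have h1 : 2 * t * (2 * t) = 4 * t ^ 2 := by ring
      rw [h1]; exact hsmall
    have hmn : n * m ≤ n * m ^ 3 := Nat.mul_le_mul_left n (Nat.le_self_pow three_ne_zero m)
    have hp2 : 2 + 2 * (m * n) ≤ p := by
      have h1 : 4 * t ≤ p := le_trans (Nat.mul_le_mul_left 4 (Nat.le_self_pow two_ne_zero t)) hsmall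
      have h2 : n * m ^ 3 + 1 ≤ t := by rw [ht]; omega
      rw [mul_comm m n]
      omega
    have hnP : n ≤ P := by
      by_contra hcon
      push Not at hcon
      have h1 : m * P ≤ m * n := Nat.mul_le_mul_left m hcon.le
      omega
    obtain ⟨A, hA⟩ : ∃ A, P = A + n := ⟨P - n, by omega⟩
    have hA2 : p ≤ 2 * m * A := by
      have h1 : p = m * A + m * n + 1 := by rw [hpP, hA]; ring
      rw [mul_assoc]
      omega
    have hms : 2 * t ≤ m * s := le_trans hs3 (Nat.le_mul_of_pos_left s (by omega))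
    obtain ⟨L, hL⟩ : ∃ L, m * s = L + t := ⟨m * s - t, by omega⟩
    have hLs : L ≤ m * s := by omega
    have hLp : L ≤ p := by
      have h1 : m ≤ s := by omega
      calc L ≤ m * s := hLs
        _ ≤ s * s := Nat.mul_le_mul_right s h1
        _ ≤ p := hs1
    have hsum : ∀ M : ℕ, 2 * ∑ k ∈ range M, (A + s + k * n) ≤ 2 * (M * (A + s)) + n * (M * M) := by
      intro M
      induction M with
      | zero => simp
      | succ M ih =>
        have e1 : 2 * ((M + 1) * (A + s)) + n * ((M + 1) * (M + 1)) =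
            (2 * (M * (A + s)) + n * (M * M)) + (2 * (A + s + M * n) + n) := by ring
        rw [sum_range_succ, mul_add, e1]
        omega
    have hdim : ∑ k ∈ range L, (A + s + k * n) < m * s * A := by
      have h1 := hsum L
      have h2 : L * s ≤ m * p := by
        calc L * s ≤ (m * s) * s := Nat.mul_le_mul_right s hLs
          _ = m * (s * s) := by ring
          _ ≤ m * p := Nat.mul_le_mul_left m hs1
      have h3 : n * (L * L) ≤ n * (m ^ 2 * p) := by
        refine Nat.mul_le_mul_left n ?_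
        calc L * L ≤ (m * s) * (m * s) := Nat.mul_le_mul hLs hLs
          _ = m ^ 2 * (s * s) := by ring
          _ ≤ m ^ 2 * p := Nat.mul_le_mul_left _ hs1
      have h4 : m * (2 * (L * s) + n * (L * L)) < m * (2 * (t * A)) := by
        calc m * (2 * (L * s) + n * (L * L)) ≤ m * (2 * (m * p) + n * (m ^ 2 * p)) :=
              Nat.mul_le_mul_left m (by omega)
          _ = (2 * m ^ 2 + n * m ^ 3) * p := by ring
          _ < (2 * m ^ 2 + n * m ^ 3 + 1) * p := by
              refine Nat.mul_lt_mul_of_pos_right (by omega) (by omega)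
          _ = t * p := by rw [ht]
          _ ≤ t * (2 * m * A) := Nat.mul_le_mul_left t hA2
          _ = m * (2 * (t * A)) := by ring
      have h5 : 2 * (L * s) + n * (L * L) < 2 * (t * A) := lt_of_mul_lt_mul_left h4 (Nat.zero_le m)
      have h6 : m * s * A = L * A + t * A := by rw [hL]; ring
      rw [h6]
      rw [mul_add] at h1
      omega
    have hmain := hstep A s L hm hn
      (by omega) hpP f f1 hf hf1 h0 hcop (by omega) hLp hdim ζ hζ
    obtain ⟨c, hc⟩ : ∃ c : ℕ, c = (univ.filter (fun x : F => (f.eval x) ^ P = ζ)).card := ⟨_, rfl⟩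
    rw [← hc] at hmain hcard ⊢
    -- real numbers
    obtain ⟨s', hs'⟩ : ∃ s', s = s' + 1 := ⟨s - 1, by omega⟩
    have hmainR : (c : ℝ) * L ≤ n * L + A + m * (n * P) + p * (s - 1) := by
      have h1 : c * L ≤ n * L + A + m * (n * P) + p * s' := by
        rw [hs'] at hmain
        simpa using hmain
      have h2 : (c : ℝ) * L ≤ n * L + A + m * (n * P) + p * s' := by exact_mod_cast h1
      rw [hs']
      push_cast
      linarith
    have hpPR : (p : ℝ) = m * P + 1 := by exact_mod_cast hpP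
    have hAR : (P : ℝ) = A + n := by exact_mod_cast hA
    have hLR : (m : ℝ) * s = L + t := by exact_mod_cast hL
    have hs3R : 2 * (t : ℝ) ≤ s := by exact_mod_cast hs3
    have ht1R : (1 : ℝ) ≤ t := by exact_mod_cast ht1
    have hPR : (0 : ℝ) ≤ P := Nat.cast_nonneg P
    have hAp : (A : ℝ) ≤ p := by
      have h1 := Nat.le_mul_of_pos_left P (by omega : 0 < m)
      have h2 : A ≤ p := by omega
      exact_mod_cast h2
    have hrs : r ≤ 2 * s := by
      have h1 : r < s + 1 := by
        rw [hr, Real.sqrt_lt' (by positivity)]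
        rw [sq]
        exact_mod_cast hs2
      linarith
    have hsL : (s : ℝ) ≤ L := by
      have h1 : 2 * (s : ℝ) ≤ m * s := mul_le_mul_of_nonneg_right hmR (Nat.cast_nonneg s)
      linarith
    have hL0 : (0 : ℝ) < L := by linarith
    have h1 : (c : ℝ) * L ≤ (n + (p : ℝ) / m + (4 * t + 4 * n) * r) * L := by
      have h2 : (c : ℝ) * L ≤ n * L + n * p + p * s := by
        have e1 : (m : ℝ) * (n * P) = n * p - n := by rw [hpPR]; ring
        rw [e1] at hmainR
        linarith
      have h3 : (p : ℝ) / m * L = p * s - t * ((p : ℝ) / m) := by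
        have : (L : ℝ) = m * s - t := by linarith
        rw [this]
        field_simp
      have h4 : (p : ℝ) / m ≤ p := div_le_self hq0 (by linarith)
      have h5 : (p : ℝ) ≤ 2 * (r * L) := by
        have h7 : r * r ≤ r * (2 * L) := mul_le_mul_of_nonneg_left (by linarith) hr0
        linarith
      have h8 : (t : ℝ) * p ≤ t * (2 * (r * L)) := mul_le_mul_of_nonneg_left h5 htR
      have h9 : (n : ℝ) * p ≤ n * (2 * (r * L)) := mul_le_mul_of_nonneg_left h5 (by linarith)
      have h10 : 0 ≤ (t : ℝ) * (r * L) := by positivity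
      have h11 : 0 ≤ (n : ℝ) * (r * L) := by positivity
      have h6 : t * ((p : ℝ) / m) ≤ t * p := mul_le_mul_of_nonneg_left h4 htR
      have e2 : ((n : ℝ) + (p : ℝ) / m + (4 * t + 4 * n) * r) * L =
          n * L + (p : ℝ) / m * L + 4 * (t * (r * L)) + 4 * (n * (r * L)) := by ring
      rw [e2, h3]
      linarith
    have h2 := le_of_mul_le_mul_right h1 hL0
    have hr1 : 1 ≤ r := by
      rw [hr, Real.one_le_sqrt]
      have : (1 : ℕ) ≤ p := by omega
      exact_mod_cast this
    have h3 : (n : ℝ) * 1 ≤ n * r := mul_le_mul_of_nonneg_left hr1 (by linarith)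
    have h4 : 0 ≤ 2 * (t : ℝ) * r := by positivity
    have e3 : (2 * (t : ℝ) + (4 * t + 5 * n)) * r = (4 * t + 4 * n) * r + n * r + 2 * t * r := by ring
    rw [e3]
    linarith

end Pool.Agent.Lib.MP_42948a_nt.WX
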