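import Mathlib

/-!
# Level sets of a multiplicative character of order `m` (job E)

Copy `level_set` of `BU/WF.lean` (with its private lemma) with the finite field `F` in place of `ZMod p` (`MulChar.orderOf_dvd_card_sub_one`, `Fˣ` is cyclic, `Fintype.card_units`).
-/

namespace Pool.Agent.Lib.MP_42948a_nt.WX

open Finset

private theorem E_unit {F : Type*} [Field F] [Fintype F] [DecidableEq F] (χ : MulChar F ℂ) {m P : ℕ}
    (hχ : orderOf χ = m) (hmP : Fintype.card F - 1 = m * P) (hP : 0 < P) (t : Fˣ) :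
    χ (t : F) = 1 ↔ t ^ P = 1 := by
  obtain ⟨g, hg⟩ := IsCyclic.exists_generator (α := Fˣ)
  have hog : orderOf g = m * P := by
    rw [orderOf_eq_card_of_forall_mem_zpowers hg, Nat.card_eq_fintype_card, Fintype.card_units, hmP]
  obtain ⟨k, hk⟩ := (mem_powers_iff_mem_zpowers.mpr (hg t))
  have hk' : g ^ k = t := hk
  have h1 : χ (t : F) = (χ ^ k) (g : F) := by
    rw [← hk', Units.val_pow_eq_pow_val, map_pow, MulChar.pow_apply_coe]
  have h2 : (χ ^ k) (g : F) = 1 ↔ χ ^ k = 1 := by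
    rw [MulChar.eq_iff hg, MulChar.one_apply_coe]
  rw [h1, h2, ← orderOf_dvd_iff_pow_eq_one, hχ, ← hk', ← pow_mul, ← orderOf_dvd_iff_pow_eq_one, hog]
  constructor
  · intro h
    exact Nat.mul_dvd_mul_right h P
  · intro h
    exact Nat.dvd_of_mul_dvd_mul_right hP h

theorem level_set' {F : Type*} [Field F] [Fintype F] [DecidableEq F] (χ : MulChar F ℂ) {m : ℕ} (hm : 2 ≤ m)
    (hχ : orderOf χ = m) :
    ∃ P : ℕ, Fintype.card F = m * P + 1 ∧ ∀ y y0 : F, y ≠ 0 → y0 ≠ 0 → (χ y = χ y0 ↔ y ^ P = y0 ^ P) := by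
  have hp1 : 1 < Fintype.card F := Fintype.one_lt_card
  have hdvd : m ∣ Fintype.card F - 1 := by
    rw [← hχ]
    exact MulChar.orderOf_dvd_card_sub_one F χ
  obtain ⟨P, hP⟩ := hdvd
  have hP0 : 0 < P := by
    rcases Nat.eq_zero_or_pos P with h | h
    · rw [h, mul_zero] at hP
      omega
    · exact h
  refine ⟨P, by omega, ?_⟩
  intro y y0 hy hy0
  have h := E_unit χ hχ hP hP0 (Units.mk0 y hy / Units.mk0 y0 hy0)
  have hv : ((Units.mk0 y hy / Units.mk0 y0 hy0 : Fˣ) : F) = y / y0 := by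
    rw [Units.val_div_eq_div_val, Units.val_mk0, Units.val_mk0]
  have hc0 : χ y0 ≠ 0 := MulChar.apply_ne_zero_iff.mpr (IsUnit.mk0 y0 hy0)
  have hχd : χ (y / y0) * χ y0 = χ y := by
    rw [← map_mul, div_mul_cancel₀ y hy0]
  have e1 : χ (y / y0) = 1 ↔ χ y = χ y0 := by
    constructor
    · intro h1
      rw [← hχd, h1, one_mul]
    · intro h1
      rw [h1] at hχd
      exact mul_right_cancel₀ hc0 (by rw [hχd, one_mul])
  have e2 : (Units.mk0 y hy / Units.mk0 y0 hy0) ^ P = 1 ↔ y ^ P = y0 ^ P := by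
    rw [Units.ext_iff, Units.val_pow_eq_pow_val, hv, Units.val_one, div_pow, div_eq_one_iff_eq (pow_ne_zero P hy0)]
  rw [← e1, ← e2, ← hv]
  exact h

end Pool.Agent.Lib.MP_42948a_nt.WX
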