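import Pool.Agent.Lib.MP_42948a_nt.WX.D
import Pool.Agent.Lib.MP_42948a_nt.WX.E
import Pool.Agent.Lib.MP_42948a_nt.BU.WI

/-!
# Character sums over polynomials, bound depending on the order (job G)

Copy `weil_char` of `BU/WG.lean` with the finite field `F` in place of `ZMod p` (`stepanov_count'`, `level_set'`; `BU.root_sum`).
-/

namespace Pool.Agent.Lib.MP_42948a_nt.WX

open Polynomial Finset

theorem weil_char' (m n : ℕ) (hm : 2 ≤ m) (hn : 1 ≤ n) :
    ∃ C : ℝ, 0 ≤ C ∧ ∀ (F : Type) [Field F] [Fintype F] [DecidableEq F] (χ : MulChar F ℂ), orderOf χ = m →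
      ∀ f : F[X], f.natDegree ≤ n → f ≠ 0 → ∀ α : F, Nat.Coprime (f.rootMultiplicity α) m →
      ‖∑ x : F, χ (f.eval x)‖ ≤ C * √(Fintype.card F : ℝ) := by
  classical
  obtain ⟨C0, hC0, hS⟩ := stepanov_count' m n hm hn
  refine ⟨m * C0 + n, by positivity, ?_⟩
  intro F _ _ _ χ hχ f hfn hf α hcop
  obtain ⟨P, hP, hlev⟩ := level_set' χ hm hχ
  obtain ⟨f1, hf1, hnd⟩ := exists_eq_pow_rootMultiplicity_mul_and_not_dvd f hf α
  have hgn : (f.comp (X + C α)).natDegree ≤ n := by
    rw [natDegree_comp, natDegree_X_add_C, mul_one]; exact hfn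
  have hg1 : f.comp (X + C α) = X ^ (f.rootMultiplicity α) * (f1.comp (X + C α)) := by
    conv_lhs => rw [hf1]
    rw [mul_comp, pow_comp, sub_comp, X_comp, C_comp, add_sub_cancel_right]
  have h0 : (f1.comp (X + C α)).coeff 0 ≠ 0 := by
    rw [coeff_zero_eq_eval_zero, eval_comp]
    simp only [eval_add, eval_X, eval_C, zero_add]
    intro h
    exact hnd (dvd_iff_isRoot.mpr h)
  have hg0 : f.comp (X + C α) ≠ 0 := by
    rw [hg1]
    apply mul_ne_zero (pow_ne_zero _ X_ne_zero)
    intro h
    apply h0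
    rw [h, coeff_zero]
  have hsum : ∑ x : F, χ (f.eval x) = ∑ x : F, χ ((f.comp (X + C α)).eval x) := by
    rw [← Equiv.sum_comp (Equiv.addRight α) (fun x : F => χ (f.eval x))]
    apply Finset.sum_congr rfl
    intro x _
    rw [eval_comp]
    simp
  rw [hsum]
  have hp1 : 1 ≤ Fintype.card F := Fintype.card_pos
  have hp : (0:ℝ) < (Fintype.card F : ℝ) := by exact_mod_cast hp1
  have hm0 : (0:ℝ) < m := by exact_mod_cast (by omega : 0 < m)
  have hval : ∀ x : F, (f.comp (X + C α)).eval x ≠ 0 → χ ((f.comp (X + C α)).eval x) ^ m = 1 := by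
    intro x h
    have h2 : (χ ^ m) ((f.comp (X + C α)).eval x) = 1 := by
      rw [← hχ, pow_orderOf_eq_one χ]
      exact MulChar.one_apply (IsUnit.mk0 _ h)
    rwa [MulChar.pow_apply' χ (by omega)] at h2
  have hzero : ∀ x : F, χ ((f.comp (X + C α)).eval x) = 0 → (f.comp (X + C α)).eval x = 0 := by
    intro x h
    by_contra h3
    have := hval x h3
    rw [h, zero_pow (by omega)] at this
    exact zero_ne_one this
  have h1 := BU.root_sum (fun x : F => χ ((f.comp (X + C α)).eval x)) m n hm
    ((Fintype.card F:ℝ)/m + C0 * √(Fintype.card F:ℝ)) (by positivity) ?_ ?_ ?_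
  · refine h1.trans ?_
    have hs : (1:ℝ) ≤ √(Fintype.card F:ℝ) := by
      rw [Real.one_le_sqrt]
      exact_mod_cast hp1
    have hn0 : (0:ℝ) ≤ n := by positivity
    have he : (m:ℝ) * ((Fintype.card F:ℝ)/m + C0 * √(Fintype.card F:ℝ)) - (Fintype.card F:ℝ) + n = m * C0 * √(Fintype.card F:ℝ) + n := by
      field_simp
      ring
    rw [he]
    nlinarith
  · intro x
    by_cases h : (f.comp (X + C α)).eval x = 0
    · left
      show χ ((f.comp (X + C α)).eval x) = 0
      rw [h]
      exact MulChar.map_zero χ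
    · right
      exact hval x h
  · have hsub : (univ.filter (fun x : F => χ ((f.comp (X + C α)).eval x) = 0)) ⊆
        (f.comp (X + C α)).roots.toFinset := by
      intro x hx
      rw [Finset.mem_filter] at hx
      rw [Multiset.mem_toFinset, mem_roots hg0]
      exact hzero x hx.2
    calc _ ≤ _ := Finset.card_le_card hsub
      _ ≤ _ := Multiset.toFinset_card_le _
      _ ≤ _ := card_roots' _
      _ ≤ n := hgn
  · intro w hw
    have hw0 : w ≠ 0 := by
      intro h
      rw [h, zero_pow (by omega)] at hw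
      exact zero_ne_one hw
    by_cases hex : ∃ x0 : F, χ ((f.comp (X + C α)).eval x0) = w
    · obtain ⟨x0, hx0⟩ := hex
      have hgx0 : (f.comp (X + C α)).eval x0 ≠ 0 := by
        intro h
        rw [h, MulChar.map_zero] at hx0
        exact hw0 hx0.symm
      have h2 := hS F P (f.rootMultiplicity α) hP (f.comp (X + C α)) (f1.comp (X + C α)) hgn hg1 h0 hcop
        (((f.comp (X + C α)).eval x0) ^ P) (pow_ne_zero _ hgx0)
      refine le_trans ?_ h2
      have hsub : (univ.filter (fun x : F => χ ((f.comp (X + C α)).eval x) = w)) ⊆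
          (univ.filter (fun x : F => ((f.comp (X + C α)).eval x) ^ P =
            ((f.comp (X + C α)).eval x0) ^ P)) := by
        intro x hx
        rw [Finset.mem_filter] at hx ⊢
        refine ⟨Finset.mem_univ _, ?_⟩
        have hgx : (f.comp (X + C α)).eval x ≠ 0 := by
          intro h
          have := hx.2
          rw [h, MulChar.map_zero] at this
          exact hw0 this.symm
        rw [← hlev _ _ hgx hgx0, hx.2, hx0]
      exact_mod_cast Finset.card_le_card hsub
    · push Not at hex
      rw [Finset.filter_false_of_mem (fun x _ => hex x), Finset.card_empty, Nat.cast_zero]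
      positivity

end Pool.Agent.Lib.MP_42948a_nt.WX
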