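import Mathlib

/-!
# Hasse derivatives of `f ^ E * h * X ^ (q l)` (job H)

`hasse_pow`: if `E ≤ k` take `G = hasseDeriv k (f ^ E)` (`f ^ (E - k) = 1`; `natDegree G ≤ natDegree (f ^ E) ≤ E n ≤ k n`, `natDegree_hasseDeriv_le`). For `k < E` induction on `E` (for all `k`):
`hasseDeriv k (f ^ E * f) = ∑_{(a, c) ∈ antidiagonal k} hasseDeriv a (f ^ E) * hasseDeriv c f` (`hasseDeriv_mul`); `a ≤ k ≤ E` (as `k < E + 1`), so the term is `f ^ (E - a) G_a * hasseDeriv c f`: for `c = 0` it is
`f ^ (E - k) G_k f = f ^ (E + 1 - k) G_k`, for `c ≥ 1` we have `E - a = (E + 1 - k) + (c - 1)`; degree of the cofactor `≤ (c - 1) n + a n + n ≤ k n` for `c ≥ 1` (`natDegree (hasseDeriv c f) ≤ n`; for `c = 0`: `≤ k n`).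
`hasse_op`: `H h = ∑_{(a, c) ∈ antidiagonal k} G_a * f ^ c * hasseDeriv c h` (`f ^ (E - a) = f ^ (E - k) f ^ c` since `a + c = k ≤ E`), a linear map (`LinearMap.mulLeft` composed with `hasseDeriv c`);
degree: `≤ a n + c n + natDegree h` (treat `h = 0` or `H h = 0` separately, compare `Hd_degree` in `BU/WA.lean`).
`hasse_X`: `hasseDeriv_mul`; for `0 < c ≤ k < p ^ a`: `hasseDeriv c (X ^ (p ^ a * l)) = (choose (p ^ a * l) c) X ^ ..` (`hasseDeriv_monomial`, `X ^ n = monomial n 1`) and the binomial coefficient is divisible by `p`: induction on `l`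
with `Nat.add_choose_eq`-like (Vandermonde) and `Nat.Prime.dvd_choose_pow`; or: in characteristic `p` the polynomial `(1 + T) ^ (p ^ a * l) = (1 + T ^ (p ^ a)) ^ l` (`add_pow_char_pow`) has zero coefficient at `c`
(`Polynomial.coeff_one_add_X_pow`; it is `expand (p ^ a) ((1 + T) ^ l)`, `coeff_expand`). Only the term `c = 0` remains.
-/

namespace Pool.Agent.Lib.MP_42948a_nt.WX

open Polynomial Finset

private theorem H_easy {F : Type*} [Field F] (f : F[X]) (n : ℕ) (hf : f.natDegree ≤ n) (E k : ℕ) (hk : E ≤ k) :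
    ∃ G : F[X], hasseDeriv k (f ^ E) = f ^ (E - k) * G ∧ G.natDegree ≤ k * n := by
  refine ⟨hasseDeriv k (f ^ E), ?_, ?_⟩
  · rw [Nat.sub_eq_zero_of_le hk, pow_zero, one_mul]
  · have h1 : (f ^ E).natDegree ≤ E * n := natDegree_pow_le.trans (Nat.mul_le_mul_left _ hf)
    exact (natDegree_hasseDeriv_le _ _).trans
      ((Nat.sub_le _ _).trans (h1.trans (Nat.mul_le_mul_right _ hk)))

theorem hasse_pow {F : Type*} [Field F] (f : F[X]) (n : ℕ) (hf : f.natDegree ≤ n) (E k : ℕ) :
    ∃ G : F[X], hasseDeriv k (f ^ E) = f ^ (E - k) * G ∧ G.natDegree ≤ k * n := by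
  induction E generalizing k with
  | zero => exact H_easy f n hf 0 k (Nat.zero_le k)
  | succ E ih =>
    rcases Nat.lt_or_ge k (E + 1) with hk | hk
    · choose G hG using ih
      refine ⟨∑ ij ∈ antidiagonal k, (if ij.2 = 0 then G ij.1
        else f ^ (ij.2 - 1) * G ij.1 * hasseDeriv ij.2 f), ?_, ?_⟩
      · rw [pow_succ, hasseDeriv_mul, Finset.mul_sum]
        refine Finset.sum_congr rfl fun ij hij => ?_
        rw [HasAntidiagonal.mem_antidiagonal] at hij
        rw [(hG ij.1).1]
        split_ifs with h0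
        · rw [h0, hasseDeriv_zero, LinearMap.id_apply]
          have e1 : ij.1 = k := by omega
          rw [e1, show E + 1 - k = (E - k) + 1 by omega, pow_succ]
          ring
        · have e1 : E - ij.1 = (E + 1 - k) + (ij.2 - 1) := by omega
          rw [e1, pow_add]
          ring
      · refine natDegree_sum_le_of_forall_le _ _ fun ij hij => ?_
        rw [HasAntidiagonal.mem_antidiagonal] at hij
        split_ifs with h0
        · have e1 : ij.1 = k := by omega
          rw [← e1]
          exact (hG ij.1).2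
        · have h1 : (f ^ (ij.2 - 1)).natDegree ≤ (ij.2 - 1) * n :=
            natDegree_pow_le.trans (Nat.mul_le_mul_left _ hf)
          have h2 := (hG ij.1).2
          have h3 : (hasseDeriv ij.2 f).natDegree ≤ n :=
            (natDegree_hasseDeriv_le f ij.2).trans ((Nat.sub_le _ _).trans hf)
          have h4 : (f ^ (ij.2 - 1) * G ij.1 * hasseDeriv ij.2 f).natDegree ≤
              ((ij.2 - 1) * n + ij.1 * n) + n :=
            natDegree_mul_le.trans (Nat.add_le_add (natDegree_mul_le.trans (Nat.add_le_add h1 h2)) h3)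
          refine h4.trans (le_of_eq ?_)
          have e2 : k = (ij.2 - 1) + ij.1 + 1 := by omega
          rw [e2]
          ring
    · exact H_easy f n hf (E + 1) k hk

theorem hasse_op {F : Type*} [Field F] (f : F[X]) (n : ℕ) (hf : f.natDegree ≤ n) (E k : ℕ) (hk : k ≤ E) :
    ∃ H : F[X] →ₗ[F] F[X], (∀ h : F[X], hasseDeriv k (f ^ E * h) = f ^ (E - k) * H h) ∧
      ∀ (A : ℕ) (h : F[X]), h.degree < (A : WithBot ℕ) → (H h).degree < ((A + k * n : ℕ) : WithBot ℕ) := by
  choose G hG using fun a => hasse_pow f n hf E a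
  refine ⟨∑ ij ∈ antidiagonal k, (LinearMap.mulLeft F (G ij.1 * f ^ ij.2)).comp (hasseDeriv ij.2), ?_, ?_⟩
  · intro h
    rw [hasseDeriv_mul, LinearMap.sum_apply, Finset.mul_sum]
    refine Finset.sum_congr rfl fun ij hij => ?_
    rw [HasAntidiagonal.mem_antidiagonal] at hij
    rw [(hG ij.1).1, LinearMap.comp_apply, LinearMap.mulLeft_apply]
    have e1 : E - ij.1 = (E - k) + ij.2 := by omega
    rw [e1, pow_add]
    ring
  · intro A h hh
    rw [LinearMap.sum_apply]
    rw [← mem_degreeLT]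
    refine Submodule.sum_mem _ fun ij hij => ?_
    rw [HasAntidiagonal.mem_antidiagonal] at hij
    rw [mem_degreeLT, LinearMap.comp_apply, LinearMap.mulLeft_apply]
    by_cases h0 : hasseDeriv ij.2 h = 0
    · rw [h0, mul_zero, degree_zero]
      exact WithBot.bot_lt_coe _
    · have hh0 : h ≠ 0 := by
        rintro rfl
        exact h0 (map_zero _)
      have h1 : h.natDegree < A := (natDegree_lt_iff_degree_lt hh0).mpr hh
      have h2 : (hasseDeriv ij.2 h).natDegree ≤ h.natDegree :=
        (natDegree_hasseDeriv_le h ij.2).trans (Nat.sub_le _ _)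
      have h3 : (G ij.1 * f ^ ij.2).natDegree ≤ ij.1 * n + ij.2 * n :=
        natDegree_mul_le.trans (Nat.add_le_add (hG ij.1).2 (natDegree_pow_le.trans (Nat.mul_le_mul_left _ hf)))
      have h4 : (G ij.1 * f ^ ij.2 * hasseDeriv ij.2 h).natDegree < A + k * n := by
        have h5 : (G ij.1 * f ^ ij.2 * hasseDeriv ij.2 h).natDegree ≤ (ij.1 * n + ij.2 * n) + h.natDegree :=
          natDegree_mul_le.trans (Nat.add_le_add h3 h2)
        have h6 : k * n = ij.1 * n + ij.2 * n := by rw [← hij, Nat.add_mul]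
        omega
      refine lt_of_le_of_lt degree_le_natDegree ?_
      exact_mod_cast h4

private theorem H_choose (F : Type*) [Field F] {p a : ℕ} [Fact p.Prime] [CharP F p] (l c : ℕ) (hc0 : c ≠ 0)
    (hc : c < p ^ a) : (((p ^ a * l).choose c : ℕ) : F) = 0 := by
  have h1 : ((1 + X : F[X]) ^ (p ^ a * l)).coeff c = (((p ^ a * l).choose c : ℕ) : F) :=
    coeff_one_add_X_pow F _ _
  rw [← h1, pow_mul, add_pow_char_pow, one_pow]
  have h2 : (1 + X ^ p ^ a : F[X]) ^ l = expand F (p ^ a) ((1 + X) ^ l) := by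
    rw [map_pow, map_add, map_one, expand_X]
  rw [h2, coeff_expand (Nat.pow_pos (Fact.out : p.Prime).pos), if_neg]
  intro h3
  exact absurd (Nat.le_of_dvd (Nat.pos_of_ne_zero hc0) h3) (not_le.mpr hc)

theorem hasse_X {F : Type*} [Field F] {p a : ℕ} [Fact p.Prime] [CharP F p] (g : F[X]) (k l : ℕ) (hk : k < p ^ a) :
    hasseDeriv k (g * X ^ (p ^ a * l)) = hasseDeriv k g * X ^ (p ^ a * l) := by
  rw [hasseDeriv_mul, Finset.sum_eq_single (k, 0)]
  · rw [hasseDeriv_zero, LinearMap.id_apply]
  · intro ij hij hne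
    rw [HasAntidiagonal.mem_antidiagonal] at hij
    have h0 : ij.2 ≠ 0 := by
      intro h
      apply hne
      ext
      · show ij.1 = k
        omega
      · exact h
    have h1 : hasseDeriv ij.2 (X ^ (p ^ a * l) : F[X]) = 0 := by
      rw [← monomial_one_right_eq_X_pow, hasseDeriv_monomial, H_choose F l ij.2 h0 (by omega), zero_mul,
        monomial_zero_right]
    rw [h1, mul_zero]
  · intro h
    exfalso
    apply h
    rw [HasAntidiagonal.mem_antidiagonal]
    exact Nat.add_zero k

end Pool.Agent.Lib.MP_42948a_nt.WX
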